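import Mathlib
import Pool.Agent.H97R2.BP.Defs
import Pool.Agent.H97R2.BP.Defs2

open scoped ComplexOrder InnerProductSpace ComplexConjugate TensorProduct
open Finset H759R2.Kad H710R2.DP

noncomputable section

namespace H97R2.BP

namespace ZZ745

variable {K : Type} [NormedAddCommGroup K] [InnerProductSpace ℂ K] [CompleteSpace K]

theorem ext_dense {V W : Type} [AddCommGroup V] [Module ℂ V] [NormedAddCommGroup W]
    [NormedSpace ℂ W] [CompleteSpace W] (L : V →ₗ[ℂ] K) (hL : DenseRange L) (f : V →ₗ[ℂ] W)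
    (c : ℝ) (hc : 0 ≤ c) (h : ∀ a, ‖f a‖ ≤ c * ‖L a‖) :
    ∃ g : K →L[ℂ] W, (∀ a, g (L a) = f a) ∧ ‖g‖ ≤ c :=
  ⟨f.extendOfNorm L, fun a => LinearMap.extendOfNorm_eq hL ⟨c, h⟩ a,
    LinearMap.opNorm_extendOfNorm_le hL hc h⟩

theorem inner_uniq {V : Type} (L : V → K) (hL : DenseRange L) (v v' : K)
    (h : ∀ a, ⟪L a, v⟫_ℂ = ⟪L a, v'⟫_ℂ) : v = v' := by
  have h1 : ∀ ξ : K, ⟪ξ, v - v'⟫_ℂ = 0 := by
    intro ξ
    refine hL.induction_on (p := fun ξ => ⟪ξ, v - v'⟫_ℂ = 0) ξ ?_ ?_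
    · exact isClosed_eq (by fun_prop) continuous_const
    · intro a
      rw [inner_sub_right, h a, sub_self]
  exact sub_eq_zero.1 (inner_self_eq_zero.1 (h1 (v - v')))

theorem form_rep {V : Type} [AddCommGroup V] [Module ℂ V] (L : V →ₗ[ℂ] K) (hL : DenseRange L)
    (B : V → V → ℂ) (ha1 : ∀ a a' b, B (a + a') b = B a b + B a' b)
    (hs1 : ∀ (c : ℂ) a b, B (c • a) b = conj c * B a b)
    (ha2 : ∀ a b b', B a (b + b') = B a b + B a b')
    (hs2 : ∀ (c : ℂ) a b, B a (c • b) = c * B a b) (C : ℝ) (hC : 0 ≤ C)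
    (hB : ∀ a b, ‖B a b‖ ≤ C * ‖L a‖ * ‖L b‖) :
    ∃ θ : K →L[ℂ] K, (∀ a b, ⟪L a, θ (L b)⟫_ℂ = B a b) ∧ ‖θ‖ ≤ C := by
  have hv : ∀ b, ∃ v : K, (∀ a, ⟪L a, v⟫_ℂ = B a b) ∧ ‖v‖ ≤ C * ‖L b‖ := by
    intro b
    let f : V →ₗ[ℂ] ℂ :=
      { toFun := fun a => conj (B a b)
        map_add' := fun a a' => by rw [ha1, map_add]
        map_smul' := fun c a => by
          rw [hs1, map_mul, Complex.conj_conj]; rfl }
    obtain ⟨g, hg, hgn⟩ := ext_dense L hL f (C * ‖L b‖) (by positivity) (by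
      intro a
      show ‖conj (B a b)‖ ≤ _
      rw [RCLike.norm_conj]
      calc ‖B a b‖ ≤ C * ‖L a‖ * ‖L b‖ := hB a b
        _ = C * ‖L b‖ * ‖L a‖ := by ring)
    refine ⟨(InnerProductSpace.toDual ℂ K).symm g, ?_, ?_⟩
    · intro a
      have h1 : ⟪(InnerProductSpace.toDual ℂ K).symm g, L a⟫_ℂ = g (L a) :=
        InnerProductSpace.toDual_symm_apply
      rw [← inner_conj_symm, h1, hg]
      show conj (conj (B a b)) = _
      rw [Complex.conj_conj]
    · rw [LinearIsometryEquiv.norm_map]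
      exact hgn
  choose v hv1 hv2 using hv
  let T : V →ₗ[ℂ] K :=
    { toFun := v
      map_add' := fun b b' => by
        apply inner_uniq L hL
        intro a
        rw [inner_add_right, hv1, hv1, hv1, ha2]
      map_smul' := fun c b => by
        apply inner_uniq L hL
        intro a
        rw [RingHom.id_apply, inner_smul_right, hv1, hv1, hs2] }
  obtain ⟨θ, h1, h2⟩ := ext_dense L hL T C hC hv2
  refine ⟨θ, fun a b => ?_, h2⟩
  rw [h1]
  exact hv1 b a

theorem op_uniq {V : Type} (L : V → K) (hL : DenseRange L) (S T : K →L[ℂ] K)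
    (h : ∀ a b, ⟪L a, S (L b)⟫_ℂ = ⟪L a, T (L b)⟫_ℂ) : S = T := by
  have h1 : ∀ b, S (L b) = T (L b) := fun b => inner_uniq L hL _ _ fun a => h a b
  apply ContinuousLinearMap.ext
  intro ξ
  refine hL.induction_on (p := fun ξ => S ξ = T ξ) ξ ?_ h1
  exact isClosed_eq S.continuous T.continuous

theorem cj_add (J : K ≃ₗᵢ⋆[ℂ] K) (a b : K →L[ℂ] K) : cj J (a + b) = cj J a + cj J b := by
  apply ContinuousLinearMap.ext
  intro x
  simp [cj_apply]

theorem cj_smul (J : K ≃ₗᵢ⋆[ℂ] K) (c : ℂ) (a : K →L[ℂ] K) : cj J (c • a) = conj c • cj J a := by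
  apply ContinuousLinearMap.ext
  intro x
  simp [cj_apply, LinearIsometryEquiv.map_smulₛₗ]

theorem cj_cj (J : K ≃ₗᵢ⋆[ℂ] K) (hJ : IsConj J) (a : K →L[ℂ] K) : cj J (cj J a) = a := by
  apply ContinuousLinearMap.ext
  intro x
  rw [cj_apply, cj_apply, hJ, hJ]

theorem cj_norm (J : K ≃ₗᵢ⋆[ℂ] K) (a : K →L[ℂ] K) : ‖cj J a‖ ≤ ‖a‖ := by
  apply ContinuousLinearMap.opNorm_le_bound _ (norm_nonneg _)
  intro x
  rw [cj_apply, LinearIsometryEquiv.norm_map]
  exact (a.le_opNorm _).trans_eq (by rw [LinearIsometryEquiv.norm_map])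

/-- a sesquilinear form which is real on the diagonal is Hermitian -/
theorem herm_of_real {V : Type} [AddCommGroup V] [Module ℂ V] (B : V → V → ℂ)
    (ha1 : ∀ a a' b, B (a + a') b = B a b + B a' b)
    (hs1 : ∀ (c : ℂ) a b, B (c • a) b = c * B a b)
    (ha2 : ∀ a b b', B a (b + b') = B a b + B a b')
    (hs2 : ∀ (c : ℂ) a b, B a (c • b) = conj c * B a b) (h : ∀ a, (B a a).im = 0) (a b : V) :
    B b a = conj (B a b) := by
  have h1 := h (a + b)
  rw [ha1, ha2, ha2, Complex.add_im, Complex.add_im, Complex.add_im, h a, h b] at h1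
  have h2 := h (a + Complex.I • b)
  rw [ha1, ha2, ha2, hs1, hs2, hs1, hs2, Complex.add_im, Complex.add_im, Complex.add_im, h a] at h2
  simp only [Complex.mul_im, Complex.conj_re, Complex.conj_im, Complex.I_re, Complex.I_im,
    Complex.mul_re, h b] at h2
  apply Complex.ext
  · rw [Complex.conj_re]; linarith
  · rw [Complex.conj_im]; linarith

/-- degenerate vectors of a positive form -/
theorem psd_zero {V : Type} [AddCommGroup V] [Module ℂ V] (B : V → V → ℂ)
    (ha1 : ∀ a a' b, B (a + a') b = B a b + B a' b)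
    (hs1 : ∀ (c : ℂ) a b, B (c • a) b = c * B a b)
    (ha2 : ∀ a b b', B a (b + b') = B a b + B a b')
    (hs2 : ∀ (c : ℂ) a b, B a (c • b) = conj c * B a b)
    (hh : ∀ a b, B b a = conj (B a b)) (hp : ∀ a, 0 ≤ (B a a).re) (u : V) (hu : B u u = 0)
    (a : V) : B a u = 0 := by
  by_contra hne
  have hpos : 0 < ‖B a u‖ ^ 2 := by positivity
  -- test the vector a + t • B a u • u
  have key : ∀ t : ℝ, 0 ≤ (B a a).re + 2 * t * ‖B a u‖ ^ 2 := by
    intro t
    have h1 := hp (a + ((t : ℂ) * B a u) • u)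
    rw [ha1, ha2, ha2, hs1, hs2, hs1, hs2, hu, hh a u] at h1
    have h2 : (conj ((t : ℂ) * B a u) * B a u).re = t * ‖B a u‖ ^ 2 := by
      rw [map_mul, Complex.conj_ofReal, mul_assoc, Complex.conj_mul', ← Complex.ofReal_pow,
        ← Complex.ofReal_mul, Complex.ofReal_re]
    have h3 : (((t : ℂ) * B a u) * conj (B a u)).re = t * ‖B a u‖ ^ 2 := by
      rw [mul_assoc, Complex.mul_conj', ← Complex.ofReal_pow, ← Complex.ofReal_mul, Complex.ofReal_re]
    simp only [Complex.add_re, h2, h3, mul_zero, Complex.zero_re] at h1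
    linarith
  have h4 := key (-((B a a).re + 1) / (2 * ‖B a u‖ ^ 2))
  have h5 : 2 * (-((B a a).re + 1) / (2 * ‖B a u‖ ^ 2)) * ‖B a u‖ ^ 2 = -((B a a).re + 1) := by
    field_simp
  linarith

/-- a positive symmetric operator whose powers of `1 + T` are bounded vanishes -/
theorem growth {V : Type} [AddCommGroup V] [Module ℂ V] (B : V → V → ℂ)
    (ha2 : ∀ a b b', B a (b + b') = B a b + B a b')
    (T : Module.End ℂ V) (hsym : ∀ a b, B a (T b) = B (T a) b)
    (hp : ∀ a, 0 ≤ (B a a).re) (hT : ∀ a, 0 ≤ (B a (T a)).re) (x : V) (C : ℝ)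
    (hb : ∀ n : ℕ, (B x (((T + 1) ^ n) x)).re ≤ C) : (B x (T x)).re ≤ 0 := by
  have hsymk : ∀ (k : ℕ) a b, B a ((T ^ k) b) = B ((T ^ k) a) b := by
    intro k
    induction k with
    | zero => intro a b; simp
    | succ k ih =>
      intro a b
      have e1 : (T ^ (k + 1)) b = (T ^ k) (T b) := by rw [pow_succ]; rfl
      have e2 : (T ^ (k + 1)) a = T ((T ^ k) a) := by rw [pow_succ']; rfl
      rw [e1, e2, ih, hsym]
  have hpos : ∀ k : ℕ, 0 ≤ (B x ((T ^ k) x)).re := by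
    intro k
    rcases Nat.even_or_odd' k with ⟨m, rfl | rfl⟩
    · have e1 : (T ^ (2 * m)) x = (T ^ m) ((T ^ m) x) := by rw [two_mul, pow_add]; rfl
      rw [e1, hsymk]
      exact hp _
    · have e1 : (T ^ (2 * m + 1)) x = (T ^ m) (T ((T ^ m) x)) := by
        rw [show 2 * m + 1 = m + (1 + m) by ring, pow_add, pow_add, pow_one]; rfl
      rw [e1, hsymk]
      exact hT _
  let φ : V →+ ℂ := AddMonoidHom.mk' (B x) (ha2 x)
  have hn : ∀ n : ℕ, 1 ≤ n → (n : ℝ) * (B x (T x)).re ≤ C := by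
    intro n hn
    refine le_trans ?_ (hb n)
    have h1 : (T + 1) ^ n = ∑ m ∈ Finset.range (n + 1), T ^ m * 1 ^ (n - m) * (n.choose m : Module.End ℂ V) :=
      (Commute.one_right T).add_pow n
    have h2 : B x (((T + 1) ^ n) x) = ∑ m ∈ Finset.range (n + 1), (n.choose m : ℂ) * B x ((T ^ m) x) := by
      rw [h1, LinearMap.sum_apply]
      show φ _ = _
      rw [map_sum]
      refine Finset.sum_congr rfl fun m _ => ?_
      have h3 : (T ^ m * 1 ^ (n - m) * (n.choose m : Module.End ℂ V)) x = n.choose m • (T ^ m) x := by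
        rw [one_pow, mul_one, Module.End.mul_apply, Module.End.natCast_apply, map_nsmul]
      rw [h3, map_nsmul, nsmul_eq_mul]
      rfl
    rw [h2, Complex.re_sum]
    have h4 : ∀ m ∈ Finset.range (n + 1), 0 ≤ ((n.choose m : ℂ) * B x ((T ^ m) x)).re := by
      intro m _
      have : ((n.choose m : ℂ) * B x ((T ^ m) x)).re = (n.choose m : ℝ) * (B x ((T ^ m) x)).re := by
        have := Complex.re_ofReal_mul (n.choose m : ℝ) (B x ((T ^ m) x))
        rw [Complex.ofReal_natCast] at this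
        exact this
      rw [this]
      exact mul_nonneg (Nat.cast_nonneg _) (hpos m)
    have h5 := Finset.single_le_sum h4 (show 1 ∈ Finset.range (n + 1) by
      rw [Finset.mem_range]; omega)
    refine le_trans (le_of_eq ?_) h5
    rw [Nat.choose_one_right, pow_one]
    have := Complex.re_ofReal_mul (n : ℝ) (B x (T x))
    rw [Complex.ofReal_natCast] at this
    exact this.symm
  by_contra hcon
  push Not at hcon
  obtain ⟨n, hn2⟩ := exists_nat_gt (C / (B x (T x)).re)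
  have h6 := hn (n + 1) (by omega)
  rw [div_lt_iff₀ hcon] at hn2
  push_cast at h6
  nlinarith

end ZZ745

open ZZ745 in
theorem bp_exp : Z_exp := by
  intro H _ _ _ K _ _ _ N Ω J hmod hΩ hcyc hsep j hmul hadj hnrm Φ hΦ hdom
  -- the map to the Hilbert space
  let L : N.toStarSubalgebra →ₗ[ℂ] K :=
    { toFun := fun a => (a : K →L[ℂ] K) Ω
      map_add' := fun a b => rfl
      map_smul' := fun c a => rfl }
  have hLa : ∀ a : N.toStarSubalgebra, L a = (a : K →L[ℂ] K) Ω := fun a => rfl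
  have hL : DenseRange L := by
    rw [Metric.denseRange_iff]
    intro ζ ε hε
    obtain ⟨x, hx, hd⟩ := hcyc ζ ε hε
    refine ⟨⟨x, hx⟩, ?_⟩
    rw [dist_comm, dist_eq_norm]
    exact hd
  -- adjoints
  have hstar : ∀ (a : K →L[ℂ] K) (ξ η : K), ⟪a ξ, η⟫_ℂ = ⟪ξ, star a η⟫_ℂ := by
    intro a ξ η
    rw [ContinuousLinearMap.star_eq_adjoint, ContinuousLinearMap.adjoint_inner_right]
  -- commutation
  have hcomm : ∀ (x y : N.toStarSubalgebra) (ζ : K),
      (x : K →L[ℂ] K) (cj J (y : K →L[ℂ] K) ζ) = cj J (y : K →L[ℂ] K) ((x : K →L[ℂ] K) ζ) := by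
    intro x y ζ
    have h1 := hmod.left (y : K →L[ℂ] K) y.2
    rw [VonNeumannAlgebra.mem_commutant_iff] at h1
    have h2 := h1 (x : K →L[ℂ] K) x.2
    exact congrArg (fun T : K →L[ℂ] K => T ζ) h2
  have hJJ : J (J Ω) = Ω := hmod.inv Ω
  -- the form s
  let s : N.toStarSubalgebra → N.toStarSubalgebra → ℂ := fun x y =>
    ⟪Ω, (x : K →L[ℂ] K) (cj J (y : K →L[ℂ] K) Ω)⟫_ℂ
  have s_a1 : ∀ a a' b, s (a + a') b = s a b + s a' b := by
    intro a a' b
    show ⟪Ω, ((a + a' : N.toStarSubalgebra) : K →L[ℂ] K) (cj J (b : K →L[ℂ] K) Ω)⟫_ℂ = _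
    rw [show ((a + a' : N.toStarSubalgebra) : K →L[ℂ] K) = (a : K →L[ℂ] K) + a' from rfl,
      ContinuousLinearMap.add_apply, inner_add_right]
  have s_s1 : ∀ (c : ℂ) a b, s (c • a) b = c * s a b := by
    intro c a b
    show ⟪Ω, ((c • a : N.toStarSubalgebra) : K →L[ℂ] K) (cj J (b : K →L[ℂ] K) Ω)⟫_ℂ = _
    rw [show ((c • a : N.toStarSubalgebra) : K →L[ℂ] K) = c • (a : K →L[ℂ] K) from rfl,
      ContinuousLinearMap.smul_apply, inner_smul_right]
  have s_a2 : ∀ a b b', s a (b + b') = s a b + s a b' := by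
    intro a b b'
    show ⟪Ω, (a : K →L[ℂ] K) (cj J ((b + b' : N.toStarSubalgebra) : K →L[ℂ] K) Ω)⟫_ℂ = _
    rw [show ((b + b' : N.toStarSubalgebra) : K →L[ℂ] K) = (b : K →L[ℂ] K) + b' from rfl,
      cj_add, ContinuousLinearMap.add_apply, map_add, inner_add_right]
  have s_s2 : ∀ (c : ℂ) a b, s a (c • b) = conj c * s a b := by
    intro c a b
    show ⟪Ω, (a : K →L[ℂ] K) (cj J ((c • b : N.toStarSubalgebra) : K →L[ℂ] K) Ω)⟫_ℂ = _
    rw [show ((c • b : N.toStarSubalgebra) : K →L[ℂ] K) = c • (b : K →L[ℂ] K) from rfl,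
      cj_smul, ContinuousLinearMap.smul_apply, map_smul, inner_smul_right]
  have s_pos : ∀ a, 0 ≤ s a a := fun a => hmod.pos a a.2
  have s_re : ∀ a, 0 ≤ (s a a).re := fun a => (Complex.nonneg_iff.1 (s_pos a)).1
  have s_im : ∀ a, (s a a).im = 0 := fun a => (Complex.nonneg_iff.1 (s_pos a)).2.symm
  have s_h : ∀ a b, s b a = conj (s a b) := herm_of_real s s_a1 s_s1 s_a2 s_s2 s_im
  have s_bd : ∀ a b : N.toStarSubalgebra, ‖s a b‖ ≤ ‖a‖ * ‖b‖ := by
    intro a b
    calc ‖s a b‖ ≤ ‖Ω‖ * ‖(a : K →L[ℂ] K) (cj J (b : K →L[ℂ] K) Ω)‖ := norm_inner_le_norm _ _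
      _ ≤ ‖Ω‖ * (‖(a : K →L[ℂ] K)‖ * (‖(b : K →L[ℂ] K)‖ * ‖Ω‖)) := by
          refine mul_le_mul_of_nonneg_left ?_ (norm_nonneg _)
          refine (ContinuousLinearMap.le_opNorm _ _).trans ?_
          refine mul_le_mul_of_nonneg_left ?_ (norm_nonneg _)
          refine (ContinuousLinearMap.le_opNorm _ _).trans ?_
          exact mul_le_mul_of_nonneg_right (cj_norm J _) (norm_nonneg _)
      _ = ‖a‖ * ‖b‖ := by
          rw [hΩ, one_mul, mul_one]; rfl
  -- the form Φ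
  have Φ_a2 : ∀ x y y', Φ x (y + y') = Φ x y + Φ x y' := by
    intro x y y'
    rw [hΦ.symm (y + y') x, hΦ.add_left, map_add, ← hΦ.symm, ← hΦ.symm]
  have Φ_s2 : ∀ (c : ℂ) x y, Φ x (c • y) = conj c * Φ x y := by
    intro c x y
    rw [hΦ.symm (c • y) x, hΦ.smul_left, map_mul, ← hΦ.symm]
  -- the projection e
  set e : H →L[ℂ] H := j 1 with he
  have he1 : star e = e := by rw [he, ← hadj, star_one]
  have he2 : e * e = e := by rw [he, ← hmul, one_mul]
  have he3 : ‖e‖ ≤ 1 := by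
    rw [he, hnrm]
    show ‖((1 : N.toStarSubalgebra) : K →L[ℂ] K)‖ ≤ 1
    exact ContinuousLinearMap.norm_id_le
  have hf1 : star (1 - e) * (1 - e) = 1 - e := by
    rw [star_sub, star_one, he1, sub_mul, one_mul, mul_sub, mul_one, he2, sub_self, sub_zero]
  have hee : star e * e = e := by rw [he1, he2]
  have hcj1 : cj J ((1 : N.toStarSubalgebra) : K →L[ℂ] K) Ω = Ω := hJJ
  have hs11 : s 1 1 = 1 := by
    show ⟪Ω, (1 : K →L[ℂ] K) (cj J ((1 : N.toStarSubalgebra) : K →L[ℂ] K) Ω)⟫_ℂ = 1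
    rw [hcj1, ContinuousLinearMap.one_apply, inner_self_eq_norm_sq_to_K, hΩ]
    simp
  have p1 : 0 ≤ Φ e 1 := by have := hΦ.pos e; rwa [hee] at this
  have p2 : 0 ≤ Φ (1 - e) 1 := by have := hΦ.pos (1 - e); rwa [hf1] at this
  have p3 : Φ e 1 + Φ (1 - e) 1 = 1 := by
    rw [← hΦ.add_left, add_sub_cancel, hΦ.one]
  have q1 := Complex.nonneg_iff.1 p1
  have q2 := Complex.nonneg_iff.1 p2
  have q3 : (Φ e 1).re + (Φ (1 - e) 1).re = 1 := by
    have := congrArg Complex.re p3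
    rwa [Complex.add_re, Complex.one_re] at this
  have b1 : ‖Φ e e‖ ^ 2 ≤ ((Φ e 1).re) ^ 2 := by
    have := hΦ.bd e e e
    rw [hee] at this
    refine this.trans ?_
    have h1 : ‖e‖ ^ 2 ≤ 1 := by
      have := norm_nonneg e
      nlinarith
    nlinarith [mul_nonneg q1.1 q1.1]
  have b2 : ‖Φ e e‖ ≤ (Φ e 1).re := by
    exact (pow_le_pow_iff_left₀ (norm_nonneg _) q1.1 two_ne_zero).1 b1
  have b3 : 1 ≤ (Φ e e).re := by
    have := hdom 1
    change (s 1 1).re ≤ _ at this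
    rw [hs11, Complex.one_re] at this
    exact this
  have b4 : (Φ e e).re ≤ ‖Φ e e‖ := Complex.re_le_norm _
  have r1 : (Φ e 1).re = 1 := le_antisymm (by linarith [q2.1]) (by linarith)
  have r2 : Φ (1 - e) 1 = 0 := by
    apply Complex.ext
    · rw [Complex.zero_re]; linarith
    · rw [Complex.zero_im]; exact q2.2.symm
  have r3 : Φ e e = 1 := by
    have h1 : (Φ e e).re = 1 := le_antisymm (by linarith) b3
    have h2 : ‖Φ e e‖ ^ 2 = (Φ e e).re ^ 2 + (Φ e e).im ^ 2 := by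
      rw [← Complex.normSq_eq_norm_sq, Complex.normSq_apply]; ring
    have h3 : ‖Φ e e‖ ^ 2 ≤ 1 := by rw [r1] at b1; simpa using b1
    have h4 : (Φ e e).im ^ 2 ≤ 0 := by rw [h2, h1] at h3; linarith
    have h5 : (Φ e e).im = 0 := by
      have := sq_nonneg (Φ e e).im
      exact pow_eq_zero_iff two_ne_zero |>.1 (le_antisymm h4 this)
    apply Complex.ext
    · rw [h1, Complex.one_re]
    · rw [h5, Complex.one_im]
  -- the form D
  let D : N.toStarSubalgebra → N.toStarSubalgebra → ℂ := fun x y => Φ (j x) (j y) - s x y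
  have D_a1 : ∀ a a' b, D (a + a') b = D a b + D a' b := by
    intro a a' b
    show Φ (j (a + a')) (j b) - s (a + a') b = _
    rw [map_add, hΦ.add_left, s_a1]
    show _ = (Φ (j a) (j b) - s a b) + (Φ (j a') (j b) - s a' b)
    ring
  have D_s1 : ∀ (c : ℂ) a b, D (c • a) b = c * D a b := by
    intro c a b
    show Φ (j (c • a)) (j b) - s (c • a) b = _
    rw [map_smul, hΦ.smul_left, s_s1]
    show _ = c * (Φ (j a) (j b) - s a b)
    ring
  have D_a2 : ∀ a b b', D a (b + b') = D a b + D a b' := by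
    intro a b b'
    show Φ (j a) (j (b + b')) - s a (b + b') = _
    rw [map_add, Φ_a2, s_a2]
    show _ = (Φ (j a) (j b) - s a b) + (Φ (j a) (j b') - s a b')
    ring
  have D_s2 : ∀ (c : ℂ) a b, D a (c • b) = conj c * D a b := by
    intro c a b
    show Φ (j a) (j (c • b)) - s a (c • b) = _
    rw [map_smul, Φ_s2, s_s2]
    show _ = conj c * (Φ (j a) (j b) - s a b)
    ring
  have D_h : ∀ a b, D b a = conj (D a b) := by
    intro a b
    show Φ (j b) (j a) - s b a = conj (Φ (j a) (j b) - s a b)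
    rw [map_sub, ← s_h, ← hΦ.symm]
  have D_p : ∀ a, 0 ≤ (D a a).re := by
    intro a
    show 0 ≤ (Φ (j a) (j a) - s a a).re
    rw [Complex.sub_re]
    have := hdom a
    change (s a a).re ≤ _ at this
    linarith
  have D11 : D 1 1 = 0 := by
    show Φ e e - s 1 1 = 0
    rw [r3, hs11, sub_self]
  have Dx1 : ∀ x : N.toStarSubalgebra, Φ (j x) e = ⟪Ω, (x : K →L[ℂ] K) Ω⟫_ℂ := by
    intro x
    have h1 := psd_zero D D_a1 D_s1 D_a2 D_s2 D_h D_p 1 D11 x
    have h2 : Φ (j x) (j 1) - s x 1 = 0 := h1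
    have h3 : s x 1 = ⟪Ω, (x : K →L[ℂ] K) Ω⟫_ℂ := by
      show ⟪Ω, (x : K →L[ℂ] K) (cj J ((1 : N.toStarSubalgebra) : K →L[ℂ] K) Ω)⟫_ℂ = _
      rw [hcj1]
    rw [← h3]
    exact sub_eq_zero.1 h2
  have hx1 : ∀ x : N.toStarSubalgebra, Φ (j x) 1 = ⟪Ω, (x : K →L[ℂ] K) Ω⟫_ℂ := by
    intro x
    have h1 : Φ (1 - e) (j x) = 0 := by
      have := hΦ.bd (1 - e) (1 - e) (j x)
      rw [hf1, r2, Complex.zero_re, mul_zero] at this
      have h2 : ‖Φ (1 - e) (j x)‖ ^ 2 = 0 := le_antisymm this (sq_nonneg _)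
      exact norm_eq_zero.1 (pow_eq_zero_iff two_ne_zero |>.1 h2)
    have h2 : Φ (j x) (1 - e) = 0 := by rw [hΦ.symm (1 - e) (j x), h1, map_zero]
    have h3 : Φ (j x) 1 = Φ (j x) e + Φ (j x) (1 - e) := by
      rw [← Φ_a2, add_sub_cancel]
    rw [h3, h2, add_zero, Dx1]
  have hLn : ∀ a : N.toStarSubalgebra, (Φ (star (j a) * j a) 1).re = ‖L a‖ ^ 2 := by
    intro a
    rw [← hadj, ← hmul, hx1]
    have h1 : ((star a * a : N.toStarSubalgebra) : K →L[ℂ] K) Ω
        = star (a : K →L[ℂ] K) ((a : K →L[ℂ] K) Ω) := rfl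
    rw [h1, ← hstar]
    have h2 := inner_self_eq_norm_sq_to_K (𝕜 := ℂ) ((a : K →L[ℂ] K) Ω)
    rw [h2, hLa]
    norm_cast
  -- the operators θ
  have hθex : ∀ y : H →L[ℂ] H, ∃ θ : K →L[ℂ] K,
      (∀ a b, ⟪L a, θ (L b)⟫_ℂ = Φ (star (j a) * j b) (star y)) ∧ ‖θ‖ ≤ ‖y‖ := by
    intro y
    apply form_rep L hL (fun a b => Φ (star (j a) * j b) (star y))
    · intro a a' b
      simp only [map_add, star_add, add_mul, hΦ.add_left]
    · intro c a b
      simp only [map_smul, star_smul, smul_mul_assoc, hΦ.smul_left]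
      rfl
    · intro a b b'
      simp only [map_add, mul_add, hΦ.add_left]
    · intro c a b
      simp only [map_smul, mul_smul_comm, hΦ.smul_left]
    · exact norm_nonneg _
    · intro a b
      have h1 := hΦ.bd (j a) (j b) (star y)
      rw [hLn, hLn, norm_star] at h1
      have h2 : ‖Φ (star (j a) * j b) (star y)‖ ^ 2 ≤ (‖y‖ * ‖L a‖ * ‖L b‖) ^ 2 := by
        refine h1.trans (le_of_eq ?_)
        ring
      exact (pow_le_pow_iff_left₀ (norm_nonneg _) (by positivity) two_ne_zero).1 h2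
  choose θ hθ hθn using hθex
  have hθc : ∀ y, θ y ∈ N.commutant := by
    intro y
    rw [VonNeumannAlgebra.mem_commutant_iff]
    intro g hg
    apply op_uniq L hL
    intro a b
    let g' : N.toStarSubalgebra := ⟨g, hg⟩
    show ⟪L a, g (θ y (L b))⟫_ℂ = ⟪L a, θ y (g (L b))⟫_ℂ
    have h1 : ⟪L a, g (θ y (L b))⟫_ℂ = ⟪L (star g' * a), θ y (L b)⟫_ℂ := by
      have h2 : L (star g' * a) = star g (L a) := rfl
      rw [h2, hstar, star_star]
    have h3 : g (L b) = L (g' * b) := rfl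
    rw [h1, h3, hθ, hθ, hmul, hmul, hadj, star_mul, star_star, mul_assoc]
  have θ_add : ∀ y y', θ (y + y') = θ y + θ y' := by
    intro y y'
    apply op_uniq L hL
    intro a b
    rw [hθ, ContinuousLinearMap.add_apply, inner_add_right, hθ, hθ, star_add, Φ_a2]
  have θ_smul : ∀ (c : ℂ) y, θ (c • y) = c • θ y := by
    intro c y
    apply op_uniq L hL
    intro a b
    rw [hθ, ContinuousLinearMap.smul_apply, inner_smul_right, hθ, star_smul, Φ_s2]
    congr 1
    exact Complex.conj_conj c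
  let E : (H →L[ℂ] H) →ₗ[ℂ] N.toStarSubalgebra :=
    { toFun := fun y => ⟨cj J (θ (star y)), hmod.right _ (hθc _)⟩
      map_add' := fun y y' => by
        apply Subtype.ext
        show cj J (θ (star (y + y'))) = cj J (θ (star y)) + cj J (θ (star y'))
        rw [star_add, θ_add, cj_add]
      map_smul' := fun c y => by
        apply Subtype.ext
        show cj J (θ (star (c • y))) = c • cj J (θ (star y))
        rw [star_smul, θ_smul, cj_smul]
        congr 1
        exact Complex.conj_conj c }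
  have hEn : ∀ y, ‖E y‖ ≤ ‖y‖ := by
    intro y
    show ‖cj J (θ (star y))‖ ≤ ‖y‖
    refine (cj_norm J _).trans ((hθn _).trans ?_)
    rw [norm_star]
  refine ⟨E, hEn, ?_⟩
  -- the key identity
  have hPhi : ∀ z x : N.toStarSubalgebra, Φ (j z) (j x) = s z (E (j x)) := by
    intro z x
    have h1 := hθ (star (j x)) 1 z
    have h2 : L 1 = Ω := rfl
    have h3 : star (j 1) * j z = j z := by
      rw [← hadj, star_one, ← hmul, one_mul]
    rw [h2, h3, star_star] at h1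
    have h4 : cj J ((E (j x) : N.toStarSubalgebra) : K →L[ℂ] K) = θ (star (j x)) := cj_cj J hmod.inv _
    rw [← h1, ← h4]
    show _ = ⟪Ω, (z : K →L[ℂ] K) (cj J ((E (j x) : N.toStarSubalgebra) : K →L[ℂ] K) Ω)⟫_ℂ
    rw [hcomm, hLa]
  let T : Module.End ℂ N.toStarSubalgebra := (E ∘ₗ j) - 1
  have hT1 : T + 1 = E ∘ₗ j := sub_add_cancel _ _
  have hTs : ∀ x y, s x (T y) = Φ (j x) (j y) - s x y := by
    intro x y
    have h1 : E (j y) = T y + y := by
      show E (j y) = (E (j y) - y) + y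
      rw [sub_add_cancel]
    rw [hPhi, h1, s_a2, add_sub_cancel_right]
  have hsym : ∀ a b, s a (T b) = s (T a) b := by
    intro a b
    rw [hTs, s_h b (T a), hTs, map_sub, ← s_h, ← hΦ.symm]
  have hTp : ∀ a, 0 ≤ (s a (T a)).re := by
    intro a
    rw [hTs]
    exact D_p a
  have hpow : ∀ (n : ℕ) (x : N.toStarSubalgebra), ‖((T + 1) ^ n) x‖ ≤ ‖x‖ := by
    intro n
    induction n with
    | zero => intro x; simp
    | succ n ih =>
      intro x
      have e1 : ((T + 1) ^ (n + 1)) x = ((T + 1) ^ n) ((T + 1) x) := by rw [pow_succ]; rfl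
      rw [e1]
      refine (ih _).trans ?_
      rw [hT1]
      show ‖E (j x)‖ ≤ ‖x‖
      exact (hEn _).trans (le_of_eq (hnrm x))
  have hgrow : ∀ x, (s x (T x)).re ≤ 0 := by
    intro x
    apply growth s s_a2 T hsym s_re hTp x (‖x‖ * ‖x‖)
    intro n
    calc (s x (((T + 1) ^ n) x)).re ≤ ‖s x (((T + 1) ^ n) x)‖ := Complex.re_le_norm _
      _ ≤ ‖x‖ * ‖((T + 1) ^ n) x‖ := s_bd _ _
      _ ≤ ‖x‖ * ‖x‖ := mul_le_mul_of_nonneg_left (hpow n x) (norm_nonneg _)
  have hD0 : ∀ x, D x x = 0 := by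
    intro x
    have h1 : (D x x).re ≤ 0 := by have := hgrow x; rwa [hTs] at this
    have h2 : (D x x).im = 0 := by
      have := congrArg Complex.im (D_h x x)
      rw [Complex.conj_im] at this
      linarith
    apply Complex.ext
    · rw [Complex.zero_re]; exact le_antisymm h1 (D_p x)
    · rw [Complex.zero_im]; exact h2
  intro x
  have hsT : ∀ a, s a (T x) = 0 := by
    intro a
    rw [hTs]
    exact psd_zero D D_a1 D_s1 D_a2 D_s2 D_h D_p x (hD0 x) a
  have hz : cj J ((T x : N.toStarSubalgebra) : K →L[ℂ] K) Ω = 0 := by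
    apply inner_uniq L hL
    intro a
    rw [inner_zero_right]
    have h1 := hsT (star a)
    rw [← h1]
    show ⟪(a : K →L[ℂ] K) Ω, _⟫_ℂ = ⟪Ω, star (a : K →L[ℂ] K) (cj J ((T x : N.toStarSubalgebra) : K →L[ℂ] K) Ω)⟫_ℂ
    rw [hstar]
  have hz2 : ((T x : N.toStarSubalgebra) : K →L[ℂ] K) Ω = 0 := by
    rw [cj_apply, hmod.fix] at hz
    exact (LinearIsometryEquiv.map_eq_zero_iff J).1 hz
  have hT0 : ((T x : N.toStarSubalgebra) : K →L[ℂ] K) = 0 := by
    apply ContinuousLinearMap.ext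
    intro ζ
    rw [ContinuousLinearMap.zero_apply]
    by_contra hne
    have hpos : 0 < ‖((T x : N.toStarSubalgebra) : K →L[ℂ] K) ζ‖ := norm_pos_iff.2 hne
    set S : K →L[ℂ] K := ((T x : N.toStarSubalgebra) : K →L[ℂ] K) with hS
    obtain ⟨t, ht, hd⟩ := hsep ζ (‖S ζ‖ / (‖S‖ + 1)) (by positivity)
    have h1 : S (t Ω) = 0 := by
      have ht' : t ∈ N.commutant := ht
      rw [VonNeumannAlgebra.mem_commutant_iff] at ht'
      have h2 := congrArg (fun T : K →L[ℂ] K => T Ω) (ht' S (T x).2)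
      have h3 : S (t Ω) = t (S Ω) := h2
      rw [h3, hz2, map_zero]
    have h4 : ‖S ζ‖ ≤ ‖S‖ * ‖t Ω - ζ‖ := by
      have h5 : S ζ = -S (t Ω - ζ) := by rw [map_sub, h1, zero_sub, neg_neg]
      rw [h5, norm_neg]
      exact S.le_opNorm _
    have h6 : ‖S‖ * ‖t Ω - ζ‖ < ‖S ζ‖ := by
      calc ‖S‖ * ‖t Ω - ζ‖ ≤ (‖S‖ + 1) * ‖t Ω - ζ‖ :=
            mul_le_mul_of_nonneg_right (by linarith) (norm_nonneg _)
        _ < (‖S‖ + 1) * (‖S ζ‖ / (‖S‖ + 1)) :=
            mul_lt_mul_of_pos_left hd (by positivity)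
        _ = ‖S ζ‖ := by field_simp
    linarith
  have hTx : T x = 0 := Subtype.ext hT0
  have h7 : E (j x) - x = 0 := hTx
  exact sub_eq_zero.1 h7

end H97R2.BP
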